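import Pool.Agent.X258.PRB.Game

namespace Pool.Agent.X258.PRB

open SimpleGraph

/-- The stations: the 2-subsets of a 40-set. -/
abbrev St : Type := {S : Finset (Fin 40) // S.card = 2}

/-- The vertices of the example: stations and 40 anchors. -/
abbrev W : Type := St ⊕ Fin 40

/-- Adjacency in the example. -/
def adj : W → W → Prop
  | Sum.inl y, Sum.inl z => y ≠ z
  | Sum.inl y, Sum.inr i => i ∉ y.1
  | Sum.inr i, Sum.inl y => i ∉ y.1
  | Sum.inr _, Sum.inr _ => False

/-- The example: the stations form a complete graph, and the anchor `i` is adjacent to the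
stations which do not contain `i`. -/
def Ex : SimpleGraph W where
  Adj := adj
  symm := ⟨by
    rintro (y | i) (z | j) h
    · exact fun h' => h h'.symm
    · exact h
    · exact h
    · exact h⟩
  loopless := ⟨by
    rintro (y | i) h
    · exact h rfl
    · exact h⟩

theorem stst {y z : St} : Sum.inl y = (Sum.inl z : W) ∨ Ex.Adj (Sum.inl y) (Sum.inl z) := by
  by_cases h : y = z
  · exact Or.inl (by rw [h])
  · exact Or.inr h

open Classical in
/-- Move the station `s` and all anchors in `t` to the station `t`. -/
noncomputable def mv (s t : St) : W → W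
  | Sum.inl y => if y = s then Sum.inl t else Sum.inl y
  | Sum.inr i => if i ∈ t.1 then Sum.inl t else Sum.inr i

theorem mv_ok (s t : St) (a b : W) (h : Ex.Adj a b) :
    mv s t a = mv s t b ∨ Ex.Adj (mv s t a) (mv s t b) := by
  rcases a with y | i <;> rcases b with z | j
  · simp only [mv]
    split_ifs <;> exact stst
  · have hj : j ∉ y.1 := h
    simp only [mv]
    split_ifs with h1 h2 h2
    · exact stst
    · exact Or.inr h2
    · exact stst
    · exact Or.inr hj
  · have hj : i ∉ z.1 := h
    simp only [mv]
    split_ifs with h1 h2 h2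
    · exact stst
    · exact stst
    · exact Or.inr h1
    · exact Or.inr hj
  · exact h.elim

variable {m : ℕ}

/-- The robber's position on the way from the station `u` to the station `x`. -/
def ρ (m : ℕ) (u x : St) (j : ℕ) (hj : j ≤ m) : SubV Ex m :=
  pos Ex m (Sum.inl u) (Sum.inl x) stst j hj

theorem push_ρ (s t u : St) (hu : u ≠ s) (j : ℕ) (hj : j ≤ m) :
    push (mv s t) (mv_ok s t) (ρ m u s j hj) = ρ m u t j hj := by
  apply Subtype.ext
  simp [push, ρ, pos, mv, hu]

/-- Moving the target station does not increase distances. -/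
theorem move_le (p : SubV Ex m) (u x x' : St) (hux : u ≠ x) (hx : Sum.inl x ∉ p.1)
    (ha : ∀ i ∈ x'.1, Sum.inr i ∉ p.1) (j : ℕ) (hj : j ≤ m) :
    (subdivision Ex m).edist p (ρ m u x' j hj) ≤ (subdivision Ex m).edist p (ρ m u x j hj) := by
  have h1 : push (mv x x') (mv_ok x x') p = p := by
    apply push_eq
    rintro (y | i) hv
    · have : y ≠ x := by rintro rfl; exact hx hv
      simp [mv, this]
    · have : i ∉ x'.1 := fun h => ha i h hv
      simp [mv, this]
  have h2 := edist_map_le (push (mv x x') (mv_ok x x')) (push_adj (mv x x') (mv_ok x x')) p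
    (ρ m u x j hj)
  rwa [h1, push_ρ x x' u hux] at h2

/-! ### The folding map -/

/-- A point lies on the closed edge `ux'`. -/
def OnEdge (u x' : St) (c : SubV Ex m) : Prop :=
  ∀ v ∈ c.1, v = Sum.inl u ∨ v = Sum.inl x'

open Classical in
/-- Fold the edge `ux'` onto the first half of the edge `ux`; move everything else by
`mv x' u`. -/
noncomputable def fold (u x x' : St) (c : SubV Ex m) : SubV Ex m :=
  if OnEdge u x' c then
    ρ m u x (min (c.1.count (Sum.inl x')) (m - c.1.count (Sum.inl x'))) (by omega)
  else push (mv x' u) (mv_ok x' u) c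

theorem ρ_zero (u x : St) : (ρ m u x 0 (by omega)).1 = Multiset.replicate m (Sum.inl u) := by
  simp [ρ, pos]

/-- At points made of one vertex only the folding map agrees with `mv x' u`. -/
theorem fold_pure (u x x' : St) (c : SubV Ex m) (a : W)
    (h : c.1 = Multiset.replicate m a) :
    fold u x x' c = push (mv x' u) (mv_ok x' u) c := by
  classical
  unfold fold
  split_ifs with hon
  · apply Subtype.ext
    rcases Nat.eq_zero_or_pos m with hm | hm
    · subst hm
      simp [ρ, pos, push, h]
    · have ha : a = Sum.inl u ∨ a = Sum.inl x' := hon a (by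
        rw [h]; exact Multiset.mem_replicate.2 ⟨by omega, rfl⟩)
      have hz : min (c.1.count (Sum.inl x')) (m - c.1.count (Sum.inl x')) = 0 := by
        rw [h, Multiset.count_replicate]
        split_ifs <;> omega
      have e1 : (ρ m u x (min (c.1.count (Sum.inl x')) (m - c.1.count (Sum.inl x')))
          (by omega)).1 = Multiset.replicate m (Sum.inl u) := by
        simp only [ρ, pos, hz]
        simp
      rw [e1]
      simp only [push, h, Multiset.map_replicate]
      rcases ha with rfl | rfl
      · by_cases hux : u = x' <;> simp [mv, hux]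
      · simp [mv]
  · rfl

theorem tent_adj {u x : St} (hux : u ≠ x) {i j : ℕ} (hi : i ≤ m) (hj : j ≤ m)
    (h : i = j ∨ i + 1 = j ∨ j + 1 = i) :
    ρ m u x i hi = ρ m u x j hj ∨ (subdivision Ex m).Adj (ρ m u x i hi) (ρ m u x j hj) := by
  rcases h with rfl | rfl | rfl
  · exact Or.inl rfl
  · exact Or.inr (pos_adj (show Ex.Adj (Sum.inl u) (Sum.inl x) from hux) hj)
  · exact Or.inr (pos_adj (show Ex.Adj (Sum.inl u) (Sum.inl x) from hux) hi).symm

theorem fold_adj (u x x' : St) (hux : u ≠ x) (hux' : u ≠ x') (c c' : SubV Ex m)
    (h : (subdivision Ex m).Adj c c') :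
    fold u x x' c = fold u x x' c' ∨ (subdivision Ex m).Adj (fold u x x' c) (fold u x x' c') := by
  classical
  have hadj := h
  obtain ⟨a, b, s, hab, hs, h1, h2⟩ := h
  by_cases hset : (a = Sum.inl u ∨ a = Sum.inl x') ∧ (b = Sum.inl u ∨ b = Sum.inl x')
  · obtain ⟨ha, hb⟩ := hset
    have hc : OnEdge u x' c := by
      intro v hv
      rw [h1] at hv
      rcases Multiset.mem_cons.1 hv with rfl | hv
      · exact ha
      · rcases hs v hv with rfl | rfl
        · exact ha
        · exact hb
    have hc' : OnEdge u x' c' := by
      intro v hv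
      rw [h2] at hv
      rcases Multiset.mem_cons.1 hv with rfl | hv
      · exact hb
      · rcases hs v hv with rfl | rfl
        · exact ha
        · exact hb
    have hcount : c.1.count (Sum.inl x') + 1 = c'.1.count (Sum.inl x') ∨
        c'.1.count (Sum.inl x') + 1 = c.1.count (Sum.inl x') := by
      have hne : a ≠ b := hab.ne
      have hux2 : (Sum.inl u : W) ≠ Sum.inl x' := fun e => hux' (Sum.inl.inj e)
      rcases ha with rfl | rfl <;> rcases hb with rfl | rfl
      · exact absurd rfl hne
      · left
        rw [h1, h2, Multiset.count_cons_self, Multiset.count_cons_of_ne hux2.symm]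
      · right
        rw [h1, h2, Multiset.count_cons_self, Multiset.count_cons_of_ne hux2.symm]
      · exact absurd rfl hne
    have hle : c.1.count (Sum.inl x') ≤ m := by
      have := Multiset.count_le_card (Sum.inl x') c.1
      rwa [c.2.1] at this
    have hle' : c'.1.count (Sum.inl x') ≤ m := by
      have := Multiset.count_le_card (Sum.inl x') c'.1
      rwa [c'.2.1] at this
    unfold fold
    rw [if_pos hc, if_pos hc']
    apply tent_adj hux
    omega
  · -- otherwise both values are given by `mv x' u`
    have key : ∀ (d : SubV Ex m) (v w : W), (v = a ∧ w = b) ∨ (v = b ∧ w = a) →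
        d.1 = v ::ₘ s → fold u x x' d = push (mv x' u) (mv_ok x' u) d := by
      intro d v w hvw hd
      by_cases hon : OnEdge u x' d
      · -- then `d` consists of `v` only
        have hv : v = Sum.inl u ∨ v = Sum.inl x' := hon v (by rw [hd]; exact Multiset.mem_cons_self _ _)
        have hs' : ∀ z ∈ s, z = v := by
          intro z hz
          by_contra hzv
          have hzw : z = w := by
            rcases hs z hz with h | h <;> rcases hvw with ⟨e1, e2⟩ | ⟨e1, e2⟩
            · exact absurd (h.trans e1.symm) hzv
            · exact h.trans e2.symm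
            · exact h.trans e2.symm
            · exact absurd (h.trans e1.symm) hzv
          have hw : w = Sum.inl u ∨ w = Sum.inl x' :=
            hzw ▸ hon z (by rw [hd]; exact Multiset.mem_cons_of_mem hz)
          apply hset
          rcases hvw with ⟨e1, e2⟩ | ⟨e1, e2⟩
          · exact ⟨e1 ▸ hv, e2 ▸ hw⟩
          · exact ⟨e2 ▸ hw, e1 ▸ hv⟩
        refine fold_pure u x x' d v ?_
        rw [Multiset.eq_replicate]
        refine ⟨d.2.1, fun z hz => ?_⟩
        rw [hd] at hz
        rcases Multiset.mem_cons.1 hz with rfl | hz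
        · rfl
        · exact hs' z hz
      · unfold fold
        rw [if_neg hon]
    rw [key c a b (Or.inl ⟨rfl, rfl⟩) h1, key c' b a (Or.inr ⟨rfl, rfl⟩) h2]
    exact push_adj _ _ c c' hadj

/-- In the first half of an edge the distance to the robber does not depend on the target. -/
theorem fold_le (p : SubV Ex m) (u x x' : St) (hux : u ≠ x) (hux' : u ≠ x')
    (hx : Sum.inl x' ∉ p.1) (ha : ∀ i ∈ u.1, Sum.inr i ∉ p.1) (j : ℕ) (hj : j ≤ m)
    (h2 : 2 * j ≤ m) :
    (subdivision Ex m).edist p (ρ m u x j hj) ≤ (subdivision Ex m).edist p (ρ m u x' j hj) := by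
  classical
  have hpush : push (mv x' u) (mv_ok x' u) p = p := by
    apply push_eq
    rintro (y | i) hv
    · have : y ≠ x' := by rintro rfl; exact hx hv
      simp [mv, this]
    · have : i ∉ u.1 := fun h => ha i h hv
      simp [mv, this]
  have hp : fold u x x' p = p := by
    by_cases hon : OnEdge u x' p
    · rw [fold_pure u x x' p (Sum.inl u), hpush]
      rw [Multiset.eq_replicate]
      refine ⟨p.2.1, fun z hz => ?_⟩
      rcases hon z hz with h | h
      · exact h
      · exact absurd (h ▸ hz) hx
    · unfold fold
      rw [if_neg hon, hpush]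
  have hq : fold u x x' (ρ m u x' j hj) = ρ m u x j hj := by
    have hon : OnEdge u x' (ρ m u x' j hj) := by
      intro v hv
      rcases Multiset.mem_add.1 hv with h | h
      · exact Or.inl (Multiset.eq_of_mem_replicate h)
      · exact Or.inr (Multiset.eq_of_mem_replicate h)
    have hcount : (ρ m u x' j hj).1.count (Sum.inl x') = j := by
      have hne : (Sum.inl u : W) ≠ Sum.inl x' := fun e => hux' (Sum.inl.inj e)
      simp [ρ, pos, Multiset.count_replicate, hux']
    unfold fold
    rw [if_pos hon]
    apply Subtype.ext
    have hmin : min ((ρ m u x' j hj).1.count (Sum.inl x'))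
        (m - (ρ m u x' j hj).1.count (Sum.inl x')) = j := by
      rw [hcount]; omega
    simp only [ρ, pos] at hmin ⊢
    rw [hmin]
  have h := edist_map_le (fold u x x') (fold_adj u x x' hux hux') p (ρ m u x' j hj)
  rwa [hp, hq] at h

end Pool.Agent.X258.PRB
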