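import Mathlib

/-!
# The probe game on uniform subdivisions

`SubV G m` is the vertex set of the graph `G^{1/m}`: the point of the subdivided edge `uv` at
distance `j` from `u` is the multiset with `m - j` copies of `u` and `j` copies of `v`.
-/

namespace Pool.Agent.X258.PRB

variable {V : Type}

/-- The vertices of `G^{1/m}`: multisets of `m` vertices of `G` all of which are ends of one edge
(or equal to one vertex); `m - j` copies of `u` and `j` copies of `v` stand for the point at
distance `j` from `u` on the subdivided edge `uv`. -/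
def SubV (G : SimpleGraph V) (m : ℕ) : Type :=
  {c : Multiset V // Multiset.card c = m ∧ ∃ a b, (a = b ∨ G.Adj a b) ∧ ∀ v ∈ c, v = a ∨ v = b}

/-- The graph `G^{1/m}`: moving one step along an edge `ab` replaces one copy of `a` by one copy
of `b`. -/
def subdivision (G : SimpleGraph V) (m : ℕ) : SimpleGraph (SubV G m) where
  Adj c c' := ∃ (a b : V) (s : Multiset V), G.Adj a b ∧ (∀ v ∈ s, v = a ∨ v = b) ∧
    c.1 = a ::ₘ s ∧ c'.1 = b ::ₘ s
  symm := ⟨by
    rintro c c' ⟨a, b, s, h, hs, h1, h2⟩
    exact ⟨b, a, s, h.symm, fun v hv => (hs v hv).symm, h2, h1⟩⟩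
  loopless := ⟨by
    rintro c ⟨a, b, s, h, hs, h1, h2⟩
    rw [h1] at h2
    exact h.ne ((Multiset.cons_inj_left s).1 h2)⟩

/-- A robber trajectory: in each step he stays or moves to a neighbour. -/
def IsTraj {P : Type} (H : SimpleGraph P) (r : ℕ → P) : Prop :=
  ∀ t, r (t + 1) = r t ∨ H.Adj (r t) (r (t + 1))

/-- The list of the answers the cop has received before round `t`, if she plays the strategy `σ`
(the next probe as a function of the answers so far) and the robber is at `r t` in round `t`. -/
noncomputable def answers {P : Type} (H : SimpleGraph P) (σ : List ℕ → P) (r : ℕ → P) :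
    ℕ → List ℕ
  | 0 => []
  | t + 1 => answers H σ r t ++ [H.dist (σ (answers H σ r t)) (r t)]

/-- The cop has a strategy such that against every robber there is a round after which the answers
(together with the movement rule) leave exactly one possibility for the robber's position. -/
def CopWinnable {P : Type} (H : SimpleGraph P) : Prop :=
  ∃ σ : List ℕ → P, ∀ r, IsTraj H r → ∃ t, ∀ r', IsTraj H r' →
    answers H σ r' (t + 1) = answers H σ r (t + 1) → r' t = r t

/-- `W` resolves `G`. -/
def Resolving (G : SimpleGraph V) (W : Finset V) : Prop :=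
  ∀ x y, (∀ w ∈ W, G.dist w x = G.dist w y) → x = y

/-- The metric dimension. -/
noncomputable def metricDim (G : SimpleGraph V) : ℕ :=
  sInf {n | ∃ W : Finset V, Resolving G W ∧ W.card = n}

/-! ### Non-expanding maps -/

theorem edist_map_le {P Q : Type} {H : SimpleGraph P} {K : SimpleGraph Q} (f : P → Q)
    (hf : ∀ a b, H.Adj a b → f a = f b ∨ K.Adj (f a) (f b)) (a b : P) :
    K.edist (f a) (f b) ≤ H.edist a b := by
  by_cases h : H.Reachable a b
  · obtain ⟨w, hw⟩ := h.exists_walk_length_eq_edist
    rw [← hw]
    clear hw h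
    induction w with
    | nil => simp
    | cons hadj w ih =>
      rename_i x y z
      refine (SimpleGraph.edist_triangle (v := f y)).trans ?_
      have h1 : K.edist (f x) (f y) ≤ 1 := by
        rcases hf _ _ hadj with h | h
        · rw [h]; simp
        · exact (SimpleGraph.edist_eq_one_iff_adj.2 h).le
      rw [SimpleGraph.Walk.length_cons]
      push_cast
      rw [add_comm]
      exact add_le_add ih h1
  · rw [SimpleGraph.edist_eq_top_of_not_reachable h]
    exact le_top

variable {G : SimpleGraph V} {m : ℕ}

/-- The map induced on the subdivision by a vertex map sending edges to edges or vertices. -/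
def push (θ : V → V) (hθ : ∀ a b, G.Adj a b → θ a = θ b ∨ G.Adj (θ a) (θ b)) (c : SubV G m) :
    SubV G m :=
  ⟨c.1.map θ, by rw [Multiset.card_map]; exact c.2.1, by
    obtain ⟨a, b, hab, hc⟩ := c.2.2
    refine ⟨θ a, θ b, ?_, ?_⟩
    · rcases hab with rfl | h
      · exact Or.inl rfl
      · exact hθ a b h
    · intro v hv
      obtain ⟨w, hw, rfl⟩ := Multiset.mem_map.1 hv
      rcases hc w hw with rfl | rfl
      · exact Or.inl rfl
      · exact Or.inr rfl⟩

theorem push_adj (θ : V → V) (hθ : ∀ a b, G.Adj a b → θ a = θ b ∨ G.Adj (θ a) (θ b))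
    (c c' : SubV G m) (h : (subdivision G m).Adj c c') :
    push θ hθ c = push θ hθ c' ∨ (subdivision G m).Adj (push θ hθ c) (push θ hθ c') := by
  obtain ⟨a, b, s, hab, hs, h1, h2⟩ := h
  rcases hθ a b hab with h | h
  · left
    apply Subtype.ext
    simp only [push, h1, h2, Multiset.map_cons, h]
  · right
    refine ⟨θ a, θ b, s.map θ, h, ?_, ?_, ?_⟩
    · intro v hv
      obtain ⟨w, hw, rfl⟩ := Multiset.mem_map.1 hv
      rcases hs w hw with rfl | rfl
      · exact Or.inl rfl
      · exact Or.inr rfl
    · simp only [push, h1, Multiset.map_cons]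
    · simp only [push, h2, Multiset.map_cons]

theorem push_eq (θ : V → V) (hθ : ∀ a b, G.Adj a b → θ a = θ b ∨ G.Adj (θ a) (θ b))
    (c : SubV G m) (h : ∀ v ∈ c.1, θ v = v) : push θ hθ c = c := by
  apply Subtype.ext
  simp only [push]
  rw [Multiset.map_congr rfl h, Multiset.map_id']

/-- The point at distance `j` from `u` on the edge `ux`. -/
def pos (G : SimpleGraph V) (m : ℕ) (u x : V) (h : u = x ∨ G.Adj u x) (j : ℕ) (hj : j ≤ m) :
    SubV G m :=
  ⟨Multiset.replicate (m - j) u + Multiset.replicate j x, by
    rw [Multiset.card_add, Multiset.card_replicate, Multiset.card_replicate]; omega, u, x, h, by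
    intro v hv
    rcases Multiset.mem_add.1 hv with h | h
    · exact Or.inl (Multiset.eq_of_mem_replicate h)
    · exact Or.inr (Multiset.eq_of_mem_replicate h)⟩

theorem pos_adj {u x : V} (h : G.Adj u x) {j : ℕ} (hj : j + 1 ≤ m) :
    (subdivision G m).Adj (pos G m u x (Or.inr h) j (by omega))
      (pos G m u x (Or.inr h) (j + 1) hj) := by
  refine ⟨u, x, Multiset.replicate (m - (j + 1)) u + Multiset.replicate j x, h, ?_, ?_, ?_⟩
  · intro v hv
    rcases Multiset.mem_add.1 hv with h | h
    · exact Or.inl (Multiset.eq_of_mem_replicate h)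
    · exact Or.inr (Multiset.eq_of_mem_replicate h)
  · simp only [pos]
    rw [show m - j = (m - (j + 1)) + 1 by omega, Multiset.replicate_succ, Multiset.cons_add]
  · simp only [pos]
    rw [Multiset.replicate_succ, Multiset.add_cons]

end Pool.Agent.X258.PRB
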