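import Pool.Agent.X258.PRB.Core

namespace Pool.Agent.X258.PRB

open SimpleGraph Finset

variable {m : ℕ}

theorem ne_of_disj {u x : St} (h : ∀ i ∈ x.1, i ∉ u.1) : u ≠ x := by
  rintro rfl
  obtain ⟨i, hi⟩ := Finset.card_pos.1 (by rw [u.2]; norm_num : 0 < u.1.card)
  exact h i hi hi

theorem same_dist (p : SubV Ex m) (i0 : Fin 40) (hi0 : ∀ i, Sum.inr i ∈ p.1 → i = i0)
    (u x x' : St) (hd : ∀ i ∈ x.1, i ∉ u.1) (hd' : ∀ i ∈ x'.1, i ∉ u.1)
    (hx : Sum.inl x ∉ p.1) (hx' : Sum.inl x' ∉ p.1) (j : ℕ) (hj : j ≤ m)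
    (h : 2 * j ≤ m ∨ (i0 ∉ x.1 ∧ i0 ∉ x'.1)) :
    (subdivision Ex m).dist p (ρ m u x j hj) = (subdivision Ex m).dist p (ρ m u x' j hj) := by
  have hux := ne_of_disj hd
  have hux' := ne_of_disj hd'
  suffices h' : (subdivision Ex m).edist p (ρ m u x j hj) =
      (subdivision Ex m).edist p (ρ m u x' j hj) by
    unfold SimpleGraph.dist
    rw [h']
  by_cases hc : (∀ i ∈ x.1, Sum.inr i ∉ p.1) ∧ (∀ i ∈ x'.1, Sum.inr i ∉ p.1)
  · exact le_antisymm (move_le p u x' x hux' hx' hc.1 j hj) (move_le p u x x' hux hx hc.2 j hj)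
  · have hex : ∃ i, (i ∈ x.1 ∨ i ∈ x'.1) ∧ Sum.inr i ∈ p.1 := by
      by_contra hno
      push Not at hno
      exact hc ⟨fun i hi => hno i (Or.inl hi), fun i hi => hno i (Or.inr hi)⟩
    obtain ⟨i, hi, hip⟩ := hex
    have hii := hi0 i hip
    subst hii
    have h2 : 2 * j ≤ m := by
      rcases h with h | h
      · exact h
      · rcases hi with hi | hi
        · exact absurd hi h.1
        · exact absurd hi h.2
    have hu : ∀ a ∈ u.1, Sum.inr a ∉ p.1 := by
      intro a ha hap
      have := hi0 a hap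
      subst this
      rcases hi with hi | hi
      · exact hd _ hi ha
      · exact hd' _ hi ha
    exact le_antisymm (fold_le p u x x' hux hux' hx' hu j hj h2)
      (fold_le p u x' x hux' hux hx hu j hj h2)

/-- Some station. -/
def st0 : St := ⟨{0, 1}, by decide⟩

theorem supp_bound (p : SubV Ex m) : ∃ (i0 : Fin 40) (y z : St),
    (∀ i, Sum.inr i ∈ p.1 → i = i0) ∧ ∀ x, Sum.inl x ∈ p.1 → x = y ∨ x = z := by
  obtain ⟨a, b, hab, hs⟩ := p.2.2
  rcases a with y | i <;> rcases b with z | k
  · refine ⟨0, y, z, fun i hi => ?_, fun x hx => ?_⟩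
    · rcases hs _ hi with h | h <;> cases h
    · rcases hs _ hx with h | h
      · exact Or.inl (Sum.inl.inj h)
      · exact Or.inr (Sum.inl.inj h)
  · refine ⟨k, y, y, fun i hi => ?_, fun x hx => ?_⟩
    · rcases hs _ hi with h | h
      · cases h
      · exact Sum.inr.inj h
    · rcases hs _ hx with h | h
      · exact Or.inl (Sum.inl.inj h)
      · cases h
  · refine ⟨i, z, z, fun i hi => ?_, fun x hx => ?_⟩
    · rcases hs _ hi with h | h
      · exact Sum.inr.inj h
      · cases h
    · rcases hs _ hx with h | h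
      · cases h
      · exact Or.inl (Sum.inl.inj h)
  · have hik : i = k := by
      rcases hab with h | h
      · exact Sum.inr.inj h
      · exact h.elim
    subst hik
    refine ⟨i, st0, st0, fun l hl => ?_, fun x hx => ?_⟩
    · rcases hs _ hl with h | h <;> exact Sum.inr.inj h
    · rcases hs _ hx with h | h <;> cases h

/-- The robber's position with a total offset argument. -/
def R (m : ℕ) (u x : St) (j : ℕ) : SubV Ex m := ρ m u x (min j m) (min_le_right _ _)

/-- The answers while the robber runs from `u` to `x`, starting with the list `L`. -/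
noncomputable def stage (σ : List ℕ → SubV Ex m) (u x : St) (L : List ℕ) : ℕ → List ℕ
  | 0 => L
  | j + 1 => stage σ u x L j ++
      [(subdivision Ex m).dist (σ (stage σ u x L j)) (R m u x (j + 1))]

theorem stage_common (σ : List ℕ → SubV Ex m) (u : St) (L : List ℕ) (j : ℕ) (hj : j ≤ m) :
    ∃ (A : ℕ → List ℕ) (C : Finset (Fin 40)) (Sp : Finset St),
      C.card ≤ j - m / 2 ∧ Sp.card ≤ 2 * j ∧
      ∀ x : St, (∀ i ∈ x.1, i ∉ u.1) → (∀ i ∈ x.1, i ∉ C) → x ∉ Sp →
        ∀ i ≤ j, stage σ u x L i = A i := by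
  classical
  induction j with
  | zero =>
    refine ⟨fun _ => L, ∅, ∅, by simp, by simp, ?_⟩
    intro x _ _ _ i hi
    have : i = 0 := by omega
    subst this
    rfl
  | succ j ih =>
    obtain ⟨A, C, Sp, hC, hSp, hA⟩ := ih (by omega)
    obtain ⟨i0, y, z, hi0, hyz⟩ := supp_bound (σ (A j))
    set C' : Finset (Fin 40) := if 2 * (j + 1) ≤ m then C else insert i0 C with hC'
    set Sp' : Finset St := insert y (insert z Sp) with hSp'
    have hCC' : C ⊆ C' := by
      rw [hC']; split_ifs
      · exact Finset.Subset.refl _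
      · exact Finset.subset_insert _ _
    let good : St → Prop := fun x => (∀ i ∈ x.1, i ∉ u.1) ∧ (∀ i ∈ x.1, i ∉ C') ∧ x ∉ Sp'
    have hgood : ∀ x, good x → ∀ i ≤ j, stage σ u x L i = A i := by
      rintro x ⟨h1, h2, h3⟩
      refine hA x h1 (fun i hi h => h2 i hi (hCC' h)) (fun h => h3 ?_)
      rw [hSp']
      exact Finset.mem_insert_of_mem (Finset.mem_insert_of_mem h)
    have hval : ∀ x x', good x → good x' →
        (subdivision Ex m).dist (σ (A j)) (R m u x (j + 1)) =
          (subdivision Ex m).dist (σ (A j)) (R m u x' (j + 1)) := by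
      rintro x x' ⟨h1, h2, h3⟩ ⟨h1', h2', h3'⟩
      have hns : ∀ w : St, w ∉ Sp' → Sum.inl w ∉ (σ (A j)).1 := by
        intro w hw hmem
        apply hw
        rw [hSp']
        rcases hyz w hmem with rfl | rfl
        · exact Finset.mem_insert_self _ _
        · exact Finset.mem_insert_of_mem (Finset.mem_insert_self _ _)
      have hmin : min (j + 1) m = j + 1 := by omega
      have := same_dist (σ (A j)) i0 hi0 u x x' h1 h1' (hns x h3) (hns x' h3') (min (j + 1) m)
        (min_le_right _ _) (by
          rw [hmin]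
          by_cases h : 2 * (j + 1) ≤ m
          · exact Or.inl h
          · right
            have e : C' = insert i0 C := by rw [hC', if_neg h]
            constructor
            · intro hx
              exact h2 i0 hx (e ▸ Finset.mem_insert_self _ _)
            · intro hx
              exact h2' i0 hx (e ▸ Finset.mem_insert_self _ _))
      exact this
    obtain ⟨v, hv⟩ : ∃ v, ∀ x, good x →
        (subdivision Ex m).dist (σ (A j)) (R m u x (j + 1)) = v := by
      by_cases hne : ∃ x0, good x0
      · obtain ⟨x0, h0⟩ := hne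
        exact ⟨_, fun x hx => hval x x0 hx h0⟩
      · exact ⟨0, fun x hx => absurd ⟨x, hx⟩ hne⟩
    refine ⟨fun i => if i ≤ j then A i else A j ++ [v], C', Sp', ?_, ?_, ?_⟩
    · rw [hC']
      split_ifs with h
      · omega
      · have := Finset.card_insert_le i0 C
        omega
    · rw [hSp']
      have h1 := Finset.card_insert_le y (insert z Sp)
      have h2 := Finset.card_insert_le z Sp
      omega
    · intro x h1 h2 h3 i hi
      have hx : good x := ⟨h1, h2, h3⟩
      by_cases hij : i ≤ j
      · simp only [hij, if_true]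
        exact hgood x hx i hij
      · have : i = j + 1 := by omega
        subst this
        simp only [hij, if_false]
        have e := hgood x hx j le_rfl
        change stage σ u x L j ++ [(subdivision Ex m).dist (σ (stage σ u x L j))
          (R m u x (j + 1))] = _
        rw [e, hv x hx]

theorem exists_pair (hm : m ≤ 41) (σ : List ℕ → SubV Ex m) (u : St) (L : List ℕ) :
    ∃ x x' : St, u ≠ x ∧ x ≠ x' ∧ ∀ j ≤ m, stage σ u x L j = stage σ u x' L j := by
  classical
  obtain ⟨A, C, Sp, hC, hSp, hA⟩ := stage_common σ u L m le_rfl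
  set B : Finset (Fin 40) := univ \ (u.1 ∪ C) with hB
  have hBc : 17 ≤ B.card := by
    have h1 : (u.1 ∪ C).card ≤ 2 + C.card := by
      have := Finset.card_union_le u.1 C
      rw [u.2] at this; exact this
    have h2 := Finset.le_card_sdiff (u.1 ∪ C) (univ : Finset (Fin 40))
    rw [Finset.card_univ, Fintype.card_fin] at h2
    rw [hB]
    omega
  have hP : 136 ≤ (powersetCard 2 B).card := by
    rw [card_powersetCard]
    calc 136 = Nat.choose 17 2 := by decide
      _ ≤ _ := Nat.choose_le_choose 2 hBc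
  have hS : (Sp.image Subtype.val).card ≤ 82 := by
    refine card_image_le.trans ?_
    omega
  have hD : 1 < (powersetCard 2 B \ Sp.image Subtype.val).card := by
    have := Finset.le_card_sdiff (Sp.image Subtype.val) (powersetCard 2 B)
    omega
  obtain ⟨a, ha, b, hb, hab⟩ := Finset.one_lt_card.1 hD
  have key : ∀ c ∈ powersetCard 2 B \ Sp.image Subtype.val, ∃ x : St, x.1 = c ∧
      (∀ i ∈ x.1, i ∉ u.1) ∧ ∀ j ≤ m, stage σ u x L j = A j := by
    intro c hc
    rw [mem_sdiff, mem_powersetCard] at hc
    refine ⟨⟨c, hc.1.2⟩, rfl, ?_, ?_⟩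
    · intro i hi h
      have := hc.1.1 hi
      rw [hB, mem_sdiff] at this
      exact this.2 (mem_union_left _ h)
    · apply hA
      · intro i hi h
        have := hc.1.1 hi
        rw [hB, mem_sdiff] at this
        exact this.2 (mem_union_left _ h)
      · intro i hi h
        have := hc.1.1 hi
        rw [hB, mem_sdiff] at this
        exact this.2 (mem_union_right _ h)
      · intro h
        exact hc.2 (mem_image.2 ⟨_, h, rfl⟩)
  obtain ⟨x, hx1, hx2, hx3⟩ := key a ha
  obtain ⟨x', hx1', _, hx3'⟩ := key b hb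
  refine ⟨x, x', ne_of_disj hx2, ?_, fun j hj => (hx3 j hj).trans (hx3' j hj).symm⟩
  rintro rfl
  exact hab (hx1.symm.trans hx1')

/-! ### The robber's trajectories -/

/-- The trajectory visiting the stations `U 0, U 1, …`. -/
def traj (m : ℕ) (U : ℕ → St) (t : ℕ) : SubV Ex m := R m (U (t / m)) (U (t / m + 1)) (t % m + 1)

theorem traj_at (hm : 0 < m) (U : ℕ → St) (s j : ℕ) (hj : j < m) :
    traj m U (m * s + j) = R m (U s) (U (s + 1)) (j + 1) := by
  unfold traj
  rw [Nat.mul_add_div hm, Nat.div_eq_of_lt hj, Nat.mul_add_mod, Nat.mod_eq_of_lt hj]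
  rfl

theorem R_step (u x : St) (j : ℕ) (hj : j < m) :
    R m u x (j + 1) = R m u x j ∨ (subdivision Ex m).Adj (R m u x j) (R m u x (j + 1)) := by
  have h1 : min (j + 1) m = j + 1 := by omega
  have h2 : min j m = j := by omega
  have e1 : R m u x (j + 1) = ρ m u x (j + 1) hj := by
    apply Subtype.ext; simp only [R, ρ, pos, h1]
  have e2 : R m u x j = ρ m u x j hj.le := by
    apply Subtype.ext; simp only [R, ρ, pos, h2]
  rw [e1, e2]
  by_cases hux : u = x
  · subst hux
    left
    apply Subtype.ext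
    simp only [ρ, pos]
    rw [← Multiset.replicate_add, ← Multiset.replicate_add]
    congr 1
    omega
  · exact Or.inr (pos_adj (show Ex.Adj (Sum.inl u) (Sum.inl x) from hux) hj)

theorem R_end (u x y : St) : R m u x m = R m x y 0 := by
  apply Subtype.ext
  simp [R, ρ, pos]

theorem isTraj_traj (hm : 0 < m) (U : ℕ → St) : IsTraj (subdivision Ex m) (traj m U) := by
  intro t
  obtain ⟨s, j, hj, rfl⟩ : ∃ s j, j < m ∧ t = m * s + j :=
    ⟨t / m, t % m, Nat.mod_lt _ hm, (Nat.div_add_mod t m).symm⟩
  by_cases h : j + 1 < m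
  · rw [traj_at hm U s j hj, show m * s + j + 1 = m * s + (j + 1) by ring,
      traj_at hm U s (j + 1) h]
    exact R_step _ _ _ h
  · have hjm : j + 1 = m := by omega
    rw [traj_at hm U s j hj, show m * s + j + 1 = m * (s + 1) + 0 by rw [Nat.mul_succ]; omega,
      traj_at hm U (s + 1) 0 hm, hjm, R_end _ _ (U (s + 1 + 1))]
    exact R_step _ _ _ hm

theorem answers_congr {P : Type} (H : SimpleGraph P) (σ : List ℕ → P) (r r' : ℕ → P) (T : ℕ)
    (h : ∀ t < T, r t = r' t) : answers H σ r T = answers H σ r' T := by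
  induction T with
  | zero => rfl
  | succ T ih =>
    simp only [answers]
    rw [ih (fun t ht => h t (by omega)), h T (by omega)]

theorem answers_stage (σ : List ℕ → SubV Ex m) (r : ℕ → SubV Ex m) (s : ℕ) (u x : St)
    (L : List ℕ) (hL : answers (subdivision Ex m) σ r (m * s) = L) (j : ℕ)
    (h : ∀ i < j, r (m * s + i) = R m u x (i + 1)) :
    answers (subdivision Ex m) σ r (m * s + j) = stage σ u x L j := by
  induction j with
  | zero => exact hL
  | succ j ih =>
    have e := ih (fun i hi => h i (by omega))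
    rw [show m * s + (j + 1) = (m * s + j) + 1 by ring]
    simp only [answers, stage]
    rw [e, h j (by omega)]

/-- The stages of the play against `σ`. -/
noncomputable def state (σ : List ℕ → SubV Ex m) (nx : St → List ℕ → St) : ℕ → St × List ℕ
  | 0 => (st0, [])
  | s + 1 => (nx (state σ nx s).1 (state σ nx s).2,
      stage σ (state σ nx s).1 (nx (state σ nx s).1 (state σ nx s).2) (state σ nx s).2 m)

theorem R_ne (u x x' : St) (hux : u ≠ x) (hxx : x ≠ x') (j : ℕ) (hj : j < m) :
    R m u x' (j + 1) ≠ R m u x (j + 1) := by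
  classical
  intro h
  have h1 := congrArg (fun c : SubV Ex m => c.1.count (Sum.inl x)) h
  have hmin : min (j + 1) m = j + 1 := by omega
  simp only [R, ρ, pos, hmin, Multiset.count_add, Multiset.count_replicate, Sum.inl.injEq,
    if_neg hux, if_neg hxx.symm, if_true] at h1
  omega

theorem not_copWinnable (hm : 0 < m) (hm' : m ≤ 41) : ¬ CopWinnable (subdivision Ex m) := by
  rintro ⟨σ, hσ⟩
  choose nx nx' h1 h2 h3 using exists_pair hm' σ
  set S := state σ nx with hS
  set U : ℕ → St := fun n => (S n).1 with hU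
  have hUs : ∀ s, U (s + 1) = nx (U s) (S s).2 := fun s => rfl
  have hLs : ∀ s, (S (s + 1)).2 = stage σ (U s) (U (s + 1)) (S s).2 m := fun s => rfl
  have hans : ∀ s, answers (subdivision Ex m) σ (traj m U) (m * s) = (S s).2 := by
    intro s
    induction s with
    | zero => rfl
    | succ s ih =>
      rw [Nat.mul_succ, hLs]
      exact answers_stage σ (traj m U) s (U s) (U (s + 1)) _ ih m
        (fun i hi => traj_at hm U s i hi)
  obtain ⟨t, ht⟩ := hσ (traj m U) (isTraj_traj hm U)
  obtain ⟨s, j, hj, rfl⟩ : ∃ s j, j < m ∧ t = m * s + j :=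
    ⟨t / m, t % m, Nat.mod_lt _ hm, (Nat.div_add_mod t m).symm⟩
  let U' : ℕ → St := fun n => if n ≤ s then U n else nx' (U s) (S s).2
  have hU's : U' s = U s := if_pos le_rfl
  have hU's1 : U' (s + 1) = nx' (U s) (S s).2 := if_neg (by omega)
  have hsame : answers (subdivision Ex m) σ (traj m U') (m * s) = (S s).2 := by
    rw [← hans s]
    apply answers_congr
    intro t' ht'
    have hlt : t' / m < s := Nat.div_lt_of_lt_mul ht'
    unfold traj
    rw [show U' (t' / m) = U (t' / m) from if_pos hlt.le,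
      show U' (t' / m + 1) = U (t' / m + 1) from if_pos hlt]
  have ha' : answers (subdivision Ex m) σ (traj m U') (m * s + (j + 1)) =
      stage σ (U s) (nx' (U s) (S s).2) (S s).2 (j + 1) := by
    refine answers_stage σ (traj m U') s _ _ _ hsame (j + 1) (fun i hi => ?_)
    rw [traj_at hm U' s i (by omega), hU's, hU's1]
  have ha : answers (subdivision Ex m) σ (traj m U) (m * s + (j + 1)) =
      stage σ (U s) (nx (U s) (S s).2) (S s).2 (j + 1) :=
    answers_stage σ (traj m U) s _ _ _ (hans s) (j + 1)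
      (fun i hi => traj_at hm U s i (by omega))
  have hfin := ht (traj m U') (isTraj_traj hm U') (by
    rw [show m * s + j + 1 = m * s + (j + 1) by ring, ha, ha']
    exact (h3 (U s) (S s).2 (j + 1) (by omega)).symm)
  rw [traj_at hm U' s j hj, traj_at hm U s j hj, hU's, hU's1, hUs] at hfin
  exact R_ne (U s) _ _ (h1 (U s) (S s).2) (h2 (U s) (S s).2) j hj hfin

/-! ### The metric dimension of the example is at most 40 -/

theorem exists_avoid (i : Fin 40) : ∃ y : St, i ∉ y.1 := by
  by_cases h : i = 0 ∨ i = 1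
  · refine ⟨⟨{2, 3}, by decide⟩, ?_⟩
    rcases h with rfl | rfl <;> decide
  · refine ⟨⟨{0, 1}, by decide⟩, ?_⟩
    simpa using h

theorem connected_Ex : Ex.Connected := by
  have h0 : ∀ v : W, Ex.Reachable v (Sum.inl st0) := by
    have hst : ∀ y z : St, Ex.Reachable (Sum.inl y) (Sum.inl z) := by
      intro y z
      by_cases h : y = z
      · rw [h]
      · exact (show Ex.Adj (Sum.inl y) (Sum.inl z) from h).reachable
    rintro (y | i)
    · exact hst y st0
    · obtain ⟨y, hy⟩ := exists_avoid i
      exact (show Ex.Adj (Sum.inr i) (Sum.inl y) from hy).reachable.trans (hst y st0)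
  have : Nonempty W := ⟨Sum.inl st0⟩
  exact ⟨fun a b => (h0 a).trans (h0 b).symm⟩

theorem resolving_Ex : Resolving Ex ((univ : Finset (Fin 40)).map ⟨Sum.inr, Sum.inr_injective⟩) := by
  intro x y h
  have h' : ∀ i : Fin 40, Ex.dist (Sum.inr i) x = Ex.dist (Sum.inr i) y := by
    intro i
    exact h _ (mem_map.2 ⟨i, mem_univ _, rfl⟩)
  rcases x with a | i
  · rcases y with b | k
    · by_contra hab
      have hab' : a.1 ≠ b.1 := fun e => hab (by rw [Subtype.ext e])
      have hns : ¬ a.1 ⊆ b.1 := fun hs =>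
        hab' (Finset.eq_of_subset_of_card_le hs (by rw [a.2, b.2]))
      obtain ⟨i, hia, hib⟩ := Finset.not_subset.1 hns
      have e1 : Ex.dist (Sum.inr i) (Sum.inl b) = 1 :=
        SimpleGraph.dist_eq_one_iff_adj.2 (show Ex.Adj (Sum.inr i) (Sum.inl b) from hib)
      have e2 := (h' i).trans e1
      have e3 : Ex.Adj (Sum.inr i) (Sum.inl a) := SimpleGraph.dist_eq_one_iff_adj.1 e2
      exact e3 hia
    · have e := h' k
      rw [SimpleGraph.dist_self] at e
      exact ((connected_Ex.dist_eq_zero_iff).1 e).symm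
  · have e := h' i
    rw [SimpleGraph.dist_self] at e
    exact (connected_Ex.dist_eq_zero_iff).1 e.symm

theorem metricDim_le : metricDim Ex ≤ 40 := by
  refine Nat.sInf_le ⟨_, resolving_Ex, ?_⟩
  rw [card_map, card_univ, Fintype.card_fin]

end Pool.Agent.X258.PRB
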